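import Pool.Agent.P.MP_e711b0_an.Main

/-!
For every single `n`: if the total space of a holomorphic fibre bundle has the convex approximation
property for maps from `ℂⁿ`, then so do the base and the fibre.
-/

open scoped Manifold

namespace Pool.Agent.Results.MP_e711b0_an.EachDimension

/-- The space `ℂⁿ`. -/
abbrev Cn (n : ℕ) : Type := EuclideanSpace ℂ (Fin n)

/-- The convex approximation property of a `d`-dimensional complex manifold `M` for maps from `ℂⁿ`: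
a holomorphic map from an open neighbourhood of a compact convex set `K ⊆ ℂⁿ` to `M` is a uniform
limit on `K` of holomorphic maps `ℂⁿ → M`. -/
def CAPn (n d : ℕ) (M : Type) [MetricSpace M] [ChartedSpace (Cn d) M] : Prop :=
  ∀ (K U : Set (Cn n)) (f : Cn n → M), IsCompact K → Convex ℝ K → IsOpen U → K ⊆ U →
    MDifferentiableOn 𝓘(ℂ, Cn n) 𝓘(ℂ, Cn d) f U → ∀ ε : ℝ, 0 < ε →
      ∃ g : Cn n → M, MDifferentiable 𝓘(ℂ, Cn n) 𝓘(ℂ, Cn d) g ∧ ∀ z ∈ K, dist (g z) (f z) < ε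

/-- `π : E → B` is a holomorphic fibre bundle with fibre `Y`: it is holomorphic and every point of
`B` has an open neighbourhood `U` with a biholomorphism `π ⁻¹ U ≃ U × Y` over `U`. -/
def IsBundle (r q p : ℕ) {E B : Type} (Y : Type) [TopologicalSpace E] [ChartedSpace (Cn r) E]
    [TopologicalSpace B] [ChartedSpace (Cn q) B] [TopologicalSpace Y] [ChartedSpace (Cn p) Y]
    (π : E → B) : Prop :=
  MDifferentiable 𝓘(ℂ, Cn r) 𝓘(ℂ, Cn q) π ∧
    ∀ b : B, ∃ U : Set B, IsOpen U ∧ b ∈ U ∧ ∃ (φ : E → B × Y) (ψ : B × Y → E),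
      MDifferentiableOn 𝓘(ℂ, Cn r) ((𝓘(ℂ, Cn q)).prod 𝓘(ℂ, Cn p)) φ (π ⁻¹' U) ∧
      MDifferentiableOn ((𝓘(ℂ, Cn q)).prod 𝓘(ℂ, Cn p)) 𝓘(ℂ, Cn r) ψ (U ×ˢ Set.univ) ∧
      (∀ e ∈ π ⁻¹' U, ψ (φ e) = e ∧ (φ e).1 = π e) ∧
      (∀ x ∈ U ×ˢ (Set.univ : Set Y), π (ψ x) = x.1 ∧ φ (ψ x) = x)

theorem capn_iff (n d : ℕ) (M : Type) [MetricSpace M] [ChartedSpace (Cn d) M] :
    CAPn n d M ↔ Pool.Agent.P.MP_e711b0_an.CAP (Cn n) (Cn d) M := by
  constructor
  · intro h K U f W hK hKc hU hKU hf hW hfW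
    obtain ⟨ε, hε, hεW⟩ := (hK.image_of_continuousOn (f := fun z => (z, f z))
      (continuousOn_id.prodMk (hf.continuousOn.mono hKU))).exists_cthickening_subset_open hW (by
        rintro _ ⟨z, hz, rfl⟩
        exact hfW z hz)
    obtain ⟨g, hg, h1⟩ := h K U f hK hKc hU hKU hf ε hε
    refine ⟨g, hg, fun z hz => hεW (Metric.mem_cthickening_of_dist_le _ _ _ _ ⟨z, hz, rfl⟩ ?_)⟩
    rw [Prod.dist_eq, dist_self]
    exact max_le hε.le (h1 z hz).le
  · intro h K U f hK hKc hU hKU hf ε hε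
    obtain ⟨g, hg, h1⟩ := h K U f {x | x.1 ∈ U ∧ dist x.2 (f x.1) < ε} hK hKc hU hKU hf
      (isOpen_iff_mem_nhds.mpr fun x hx => Filter.Eventually.and
        ((hU.preimage continuous_fst).mem_nhds hx.1)
        ((continuousAt_snd.dist ((hf.continuousOn.continuousAt (hU.mem_nhds hx.1)).comp
          continuousAt_fst)).eventually_lt continuousAt_const hx.2))
      fun z hz => ⟨hKU hz, by simpa using hε⟩
    exact ⟨g, hg, fun z hz => (h1 z hz).2⟩

theorem result (n r q p : ℕ) (E B Y : Type) [Nonempty E]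
    [MetricSpace E] [ChartedSpace (Cn r) E] [IsManifold 𝓘(ℂ, Cn r) 1 E]
    [MetricSpace B] [ChartedSpace (Cn q) B] [IsManifold 𝓘(ℂ, Cn q) 1 B]
    [MetricSpace Y] [ChartedSpace (Cn p) Y] [IsManifold 𝓘(ℂ, Cn p) 1 Y]
    (π : E → B) (hπ : IsBundle r q p Y π) (hE : CAPn n r E) : CAPn n q B ∧ CAPn n p Y := by
  obtain ⟨hπ, htriv⟩ := hπ
  choose U hU hmem φ ψ h1 h2 h3 h4 using htriv
  have h : Pool.Agent.P.MP_e711b0_an.Triv (Cn p) (Cn r) (Cn q) π U φ ψ :=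
    ⟨hπ, hU, hmem, h1, h2, h3, h4⟩
  have : Nonempty Y := ⟨(φ (π (Classical.arbitrary E)) (Classical.arbitrary E)).2⟩
  rw [capn_iff] at hE
  exact ⟨(capn_iff _ _ _).mpr (h.cap_base hE), (capn_iff _ _ _).mpr
    (Pool.Agent.P.MP_e711b0_an.cap_of_step_metric (h.step_fibre hE))⟩

end Pool.Agent.Results.MP_e711b0_an.EachDimension
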